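import Pool.Agent.helper86.OF.SpecX

/-!
# OF, module KB3: the last vertex (helper92)
-/

open scoped BigOperators

namespace Pool.Agent.OF

noncomputable section

open Classical

variable {V : Type} [Fintype V]

/-- delete the edge at `a` -/
def KB3_del {V : Type} (μ : V → V) (a : V) : V → V := fun v => if v = a ∨ v = μ a then v else μ v

/-- add the edge `a b` -/
def KB3_joi {V : Type} (μ : V → V) (a b : V) : V → V :=
  fun v => if v = a then b else if v = b then a else μ v

/-- the step from `(μ, T)` to `(μ', T')`, changes only in `R` -/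
structure KB3_St {V : Type} (C : SimpleGraph V) (m μ : V → V) (T : Finset V) (μ' : V → V)
    (T' R : Finset V) : Prop where
  chg : Chg C m μ' T'
  sub : T ⊆ T'
  sup : T' ⊆ T ∪ R
  same : ∀ v, v ∉ R → μ' v = μ v

theorem KB3_trans {V : Type} {C : SimpleGraph V} {m μ μ' μ'' : V → V} {T T' T'' R R' : Finset V}
    (h : KB3_St C m μ T μ' T' R) (h' : KB3_St C m μ' T' μ'' T'' R') :
    KB3_St C m μ T μ'' T'' (R ∪ R') := by
  refine ⟨h'.chg, h.sub.trans h'.sub, ?_, ?_⟩
  · intro v hv
    have h1 := h'.sup hv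
    rw [Finset.mem_union] at h1
    simp only [Finset.mem_union]
    rcases h1 with h1 | h1
    · have h2 := h.sup h1
      rw [Finset.mem_union] at h2
      tauto
    · tauto
  · intro v hv
    rw [Finset.mem_union, not_or] at hv
    rw [h'.same v hv.2, h.same v hv.1]

theorem KB3_Tcl {V : Type} {C : SimpleGraph V} {m μ : V → V} {T : Finset V}
    (hm : ∀ v, m (m v) = v) (h : Chg C m μ T) (v : V) : μ v ∈ T ↔ v ∈ T := by
  have key : ∀ w, w ∉ T → μ w ∉ T := by
    intro w hw hw'
    rw [h.off w hw] at hw'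
    have := h.clo _ hw'
    rw [hm] at this
    exact hw this
  constructor
  · intro h1
    by_contra h2
    exact key v h2 h1
  · intro h1
    by_contra h2
    have := key _ h2
    rw [h.inv] at this
    exact this h1

/-- closure of `T ∪ {a}` for an uncovered vertex -/
theorem KB3_unc {V : Type} {C : SimpleGraph V} {m μ : V → V} {T : Finset V}
    (h : Chg C m μ T) {a : V} (ha : μ a = a) : m a = a ∨ m a ∈ T := by
  by_cases h1 : a ∈ T
  · exact Or.inr (h.clo a h1)
  · left
    rw [← h.off a h1, ha]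

theorem KB3_delSt {V : Type} {C : SimpleGraph V} {m μ : V → V} {T : Finset V}
    (hm : ∀ v, m (m v) = v) (h : Chg C m μ T) (a : V) :
    KB3_St C m μ T (KB3_del μ a) (T ∪ {a, μ a}) {a, μ a} := by
  have hT := KB3_Tcl hm h
  refine ⟨⟨?_, ?_, ?_, ?_⟩, Finset.subset_union_left, Finset.Subset.refl _, ?_⟩
  · intro v
    unfold KB3_del
    by_cases h1 : v = a ∨ v = μ a
    · rw [if_pos h1, if_pos h1]
    · rw [if_neg h1]
      have h2 : ¬ (μ v = a ∨ μ v = μ a) := by
        rintro (h2 | h2)
        · apply h1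
          right
          rw [← h2, h.inv]
        · apply h1
          left
          rw [← h.inv v, h2, h.inv]
      rw [if_neg h2, h.inv]
  · intro v hv
    simp only [Finset.mem_union, Finset.mem_insert, Finset.mem_singleton, not_or] at hv
    unfold KB3_del
    rw [if_neg (by tauto)]
    exact h.off v hv.1
  · intro v hv
    simp only [Finset.mem_union, Finset.mem_insert, Finset.mem_singleton] at hv ⊢
    rcases hv with hv | hv | hv
    · exact Or.inl (h.clo v hv)
    · subst hv
      by_cases h1 : v ∈ T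
      · exact Or.inl (h.clo v h1)
      · right
        right
        rw [h.off v h1]
    · subst hv
      by_cases h1 : a ∈ T
      · left
        exact h.clo _ ((hT a).2 h1)
      · right
        left
        rw [h.off a h1, hm]
  · intro v hv
    unfold KB3_del at hv
    by_cases h1 : v = a ∨ v = μ a
    · rw [if_pos h1] at hv
      exact absurd rfl hv
    · rw [if_neg h1] at hv
      unfold KB3_del
      rw [if_neg h1]
      exact h.edg v hv
  · intro v hv
    simp only [Finset.mem_insert, Finset.mem_singleton] at hv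
    unfold KB3_del
    rw [if_neg hv]

theorem KB3_joiSt {V : Type} {C : SimpleGraph V} {m μ : V → V} {T : Finset V}
    (h : Chg C m μ T) {a b : V} (ha : μ a = a) (hb : μ b = b) (hC : C.Adj a b) :
    KB3_St C m μ T (KB3_joi μ a b) (T ∪ {a, b}) {a, b} := by
  have hab : a ≠ b := hC.ne
  refine ⟨⟨?_, ?_, ?_, ?_⟩, Finset.subset_union_left, Finset.Subset.refl _, ?_⟩
  · intro v
    unfold KB3_joi
    by_cases h1 : v = a
    · subst h1
      rw [if_pos rfl, if_neg hab.symm, if_pos rfl]
    · by_cases h2 : v = b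
      · subst h2
        rw [if_neg h1, if_pos rfl, if_pos rfl]
      · rw [if_neg h1, if_neg h2]
        have h3 : μ v ≠ a := by
          intro h3
          apply h1
          rw [← h.inv v, h3, ha]
        have h4 : μ v ≠ b := by
          intro h4
          apply h2
          rw [← h.inv v, h4, hb]
        rw [if_neg h3, if_neg h4, h.inv]
  · intro v hv
    simp only [Finset.mem_union, Finset.mem_insert, Finset.mem_singleton, not_or] at hv
    unfold KB3_joi
    rw [if_neg hv.2.1, if_neg hv.2.2]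
    exact h.off v hv.1
  · intro v hv
    simp only [Finset.mem_union, Finset.mem_insert, Finset.mem_singleton] at hv ⊢
    rcases hv with hv | hv | hv
    · exact Or.inl (h.clo v hv)
    · subst hv
      rcases KB3_unc h ha with h1 | h1
      · exact Or.inr (Or.inl h1)
      · exact Or.inl h1
    · subst hv
      rcases KB3_unc h hb with h1 | h1
      · exact Or.inr (Or.inr h1)
      · exact Or.inl h1
  · intro v hv
    unfold KB3_joi at hv ⊢
    by_cases h1 : v = a
    · subst h1
      rw [if_pos rfl]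
      exact Or.inl hC
    · by_cases h2 : v = b
      · subst h2
        rw [if_neg h1, if_pos rfl]
        exact Or.inl hC.symm
      · rw [if_neg h1, if_neg h2] at hv ⊢
        exact h.edg v hv
  · intro v hv
    simp only [Finset.mem_insert, Finset.mem_singleton, not_or] at hv
    unfold KB3_joi
    rw [if_neg hv.1, if_neg hv.2]

theorem KB3_del_a {V : Type} (μ : V → V) (a : V) : KB3_del μ a a = a := by
  unfold KB3_del
  rw [if_pos (Or.inl rfl)]

theorem KB3_del_b {V : Type} (μ : V → V) (a : V) : KB3_del μ a (μ a) = μ a := by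
  unfold KB3_del
  rw [if_pos (Or.inr rfl)]

theorem KB3_del_c {V : Type} (μ : V → V) (a v : V) (h1 : v ≠ a) (h2 : v ≠ μ a) :
    KB3_del μ a v = μ v := by
  unfold KB3_del
  rw [if_neg (by tauto)]

theorem KB3_del_f {V : Type} (μ : V → V) (a v : V) (h : μ v = v) : KB3_del μ a v = v := by
  unfold KB3_del
  split_ifs
  · rfl
  · exact h

theorem KB3_joi_a {V : Type} (μ : V → V) (a b : V) : KB3_joi μ a b a = b := by
  unfold KB3_joi
  rw [if_pos rfl]

theorem KB3_joi_b {V : Type} (μ : V → V) (a b : V) : KB3_joi μ a b b = a := by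
  unfold KB3_joi
  split_ifs with h
  · exact h
  · rfl
  · rename_i h1
    exact absurd rfl h1

theorem KB3_joi_c {V : Type} (μ : V → V) (a b v : V) (h1 : v ≠ a) (h2 : v ≠ b) :
    KB3_joi μ a b v = μ v := by
  unfold KB3_joi
  rw [if_neg h1, if_neg h2]

/-- shift -/
theorem KB3_shf {V : Type} {C : SimpleGraph V} {m μ : V → V} {T : Finset V}
    (hm : ∀ v, m (m v) = v) (h : Chg C m μ T) {u b : V} (hu : μ u = u) (hC : C.Adj u b) :
    ∃ (μ' : V → V) (T' : Finset V), KB3_St C m μ T μ' T' {u, b, μ b} ∧ μ' u = b ∧ μ' b = u ∧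
      (μ b ≠ b → μ' (μ b) = μ b) := by
  have h1 := KB3_delSt hm h b
  have h2 := KB3_joiSt h1.chg (KB3_del_f μ b u hu) (KB3_del_a μ b) hC
  have h3 := KB3_trans h1 h2
  refine ⟨_, _, ⟨h3.chg, h3.sub, ?_, ?_⟩, KB3_joi_a _ _ _, KB3_joi_b _ _ _, ?_⟩
  · intro v hv
    have := h3.sup hv
    simp only [Finset.mem_union, Finset.mem_insert, Finset.mem_singleton] at this ⊢
    tauto
  · intro v hv
    apply h3.same
    simp only [Finset.mem_union, Finset.mem_insert, Finset.mem_singleton] at hv ⊢
    tauto
  · intro h4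
    have h5 : μ b ≠ u := by
      intro h5
      have := h.inv b
      rw [h5, hu] at this
      exact hC.ne this
    rw [KB3_joi_c _ _ _ _ h5 h4, KB3_del_b]

/-- the set `P(u)` -/
def KB3_P (C : SimpleGraph V) (m : V → V) (X S T : Finset V) (u : V) : Finset V :=
  Finset.univ.filter fun b => b ∉ S ∧ b ∉ T ∧ C.Adj u b ∧ m b ≠ b ∧ m b ∈ X ∧ m b ∉ S ∧ m b ∉ T

theorem KB3_Pcard {A X Z S T : Finset V} {C : SimpleGraph V} {m : V → V} {ε : ℝ}
    (hK : KCtx A X Z C m S ε) (hT : (T.card : ℝ) ≤ ε / 4 * Fintype.card V) {u : V} (hu : u ∈ X)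
    (hs : stk C m X S ε u) :
    (1 / 4 + 2 * ε) * Fintype.card V ≤ ((KB3_P C m X S T u).card : ℝ) := by
  have h1 := hK.dgc u hu
  have h2 : ((Finset.univ.filter fun b => b ∉ S ∧ C.Adj u b).card : ℝ) ≤
      (KB3_P C m X S T u).card + (Finset.univ.filter fun b => b ∉ S ∧ C.Adj u b ∧
        (m b = b ∨ m b ∉ X)).card + T.card + T.card + S.card := by
    have h3 : (Finset.univ.filter fun b => b ∉ S ∧ C.Adj u b) ⊆
        ((((KB3_P C m X S T u) ∪ (Finset.univ.filter fun b => b ∉ S ∧ C.Adj u b ∧
        (m b = b ∨ m b ∉ X))) ∪ T) ∪ T.image m) ∪ S.image m := by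
      intro b hb
      rw [Finset.mem_filter] at hb
      unfold KB3_P
      simp only [Finset.mem_union, Finset.mem_filter, Finset.mem_univ, true_and]
      by_cases h4 : m b = b
      · left; left; left; right
        exact ⟨hb.2.1, hb.2.2, Or.inl h4⟩
      by_cases h5 : m b ∈ X
      swap
      · left; left; left; right
        exact ⟨hb.2.1, hb.2.2, Or.inr h5⟩
      by_cases h6 : b ∈ T
      · left; left; right
        exact h6
      by_cases h7 : m b ∈ T
      · left; right
        rw [Finset.mem_image]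
        exact ⟨m b, h7, hK.inv b⟩
      by_cases h8 : m b ∈ S
      · right
        rw [Finset.mem_image]
        exact ⟨m b, h8, hK.inv b⟩
      left; left; left; left
      exact ⟨hb.2.1, h6, hb.2.2, h4, h5, h8, h7⟩
    have h4 := Finset.card_le_card h3
    have h5 := Finset.card_union_le ((((KB3_P C m X S T u) ∪ (Finset.univ.filter fun b =>
      b ∉ S ∧ C.Adj u b ∧ (m b = b ∨ m b ∉ X))) ∪ T) ∪ T.image m) (S.image m)
    have h6 := Finset.card_union_le (((KB3_P C m X S T u) ∪ (Finset.univ.filter fun b =>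
      b ∉ S ∧ C.Adj u b ∧ (m b = b ∨ m b ∉ X))) ∪ T) (T.image m)
    have h7 := Finset.card_union_le ((KB3_P C m X S T u) ∪ (Finset.univ.filter fun b =>
      b ∉ S ∧ C.Adj u b ∧ (m b = b ∨ m b ∉ X))) T
    have h8 := Finset.card_union_le (KB3_P C m X S T u) (Finset.univ.filter fun b =>
      b ∉ S ∧ C.Adj u b ∧ (m b = b ∨ m b ∉ X))
    have h9 : (S.image m).card ≤ S.card := Finset.card_image_le
    have h10 : (T.image m).card ≤ T.card := Finset.card_image_le
    have h11 : (Finset.univ.filter fun b => b ∉ S ∧ C.Adj u b).card ≤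
      (KB3_P C m X S T u).card + (Finset.univ.filter fun b => b ∉ S ∧ C.Adj u b ∧
        (m b = b ∨ m b ∉ X)).card + T.card + T.card + S.card := by omega
    exact_mod_cast h11
  have h3 := hK.szS
  unfold stk at hs
  have h4 : 0 ≤ ε * Fintype.card V := mul_nonneg hK.e0.le (Nat.cast_nonneg _)
  nlinarith

theorem KB3_same {A X Z S T : Finset V} {C : SimpleGraph V} {m : V → V} {ε : ℝ}
    (hK : KCtx A X Z C m S ε) (hT : (T.card : ℝ) ≤ ε / 4 * Fintype.card V) {u z : V} (hu : u ∈ X)
    (hs : stk C m X S ε u) (hz : z ∈ X) (huz : u ∈ A ↔ z ∈ A) :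
    ∃ b ∈ KB3_P C m X S T u, C.Adj z (m b) := by
  by_contra hcon
  push Not at hcon
  have h1 := KB3_Pcard hK hT hu hs
  have h2 := hK.dgc z hz
  have hinj : Function.Injective m := fun a b hab => by rw [← hK.inv a, hab, hK.inv]
  have h3 : ((KB3_P C m X S T u).image m).card = (KB3_P C m X S T u).card :=
    Finset.card_image_of_injective _ hinj
  have h4 : Disjoint ((KB3_P C m X S T u).image m)
      (Finset.univ.filter fun b => b ∉ S ∧ C.Adj z b) := by
    rw [Finset.disjoint_left]
    intro a ha hb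
    rw [Finset.mem_image] at ha
    obtain ⟨b, hb1, rfl⟩ := ha
    rw [Finset.mem_filter] at hb
    exact hcon b hb1 hb.2.2
  have h5 := Finset.card_union_of_disjoint h4
  rw [h3] at h5
  have hN : 0 < (Fintype.card V : ℝ) := by
    have : 0 < Fintype.card V := Fintype.card_pos_iff.2 ⟨u⟩
    exact_mod_cast this
  have h6 : ((((KB3_P C m X S T u).image m) ∪
      (Finset.univ.filter fun b => b ∉ S ∧ C.Adj z b)).card : ℝ) ≤
      (1 / 2 + ε) * Fintype.card V := by
    by_cases hzA : z ∈ A
    · refine le_trans ?_ hK.szB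
      norm_cast
      apply Finset.card_le_card
      intro a ha
      rw [Finset.mem_union, Finset.mem_image, Finset.mem_filter] at ha
      rw [Finset.mem_sdiff]
      rcases ha with ⟨b, hb, rfl⟩ | ⟨_, _, ha⟩
      · unfold KB3_P at hb
        rw [Finset.mem_filter] at hb
        have := (hK.cr u b hb.2.2.2.1).2.2
        refine ⟨hK.XZ hb.2.2.2.2.2.1, ?_⟩
        rw [hK.inn]
        tauto
      · have := hK.cr z a ha
        exact ⟨this.2.1, by tauto⟩
    · refine le_trans ?_ hK.szA
      norm_cast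
      apply Finset.card_le_card
      intro a ha
      rw [Finset.mem_union, Finset.mem_image, Finset.mem_filter] at ha
      rw [Finset.mem_inter]
      rcases ha with ⟨b, hb, rfl⟩ | ⟨_, _, ha⟩
      · unfold KB3_P at hb
        rw [Finset.mem_filter] at hb
        have := (hK.cr u b hb.2.2.2.1).2.2
        refine ⟨hK.XZ hb.2.2.2.2.2.1, ?_⟩
        rw [hK.inn]
        tauto
      · have := hK.cr z a ha
        exact ⟨this.2.1, by tauto⟩
  rw [h5] at h6
  push_cast at h6
  have h7 : 0 < ε * Fintype.card V := mul_pos hK.e0 hN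
  nlinarith

/-- same side -/
theorem KB3_jn1 {A X Z S T : Finset V} {C : SimpleGraph V} {m μ : V → V} {ε : ℝ}
    (hK : KCtx A X Z C m S ε) (h : Chg C m μ T) (hT : (T.card : ℝ) ≤ ε / 4 * Fintype.card V)
    {u z : V} (hu : u ∈ X) (hs : stk C m X S ε u) (hz : z ∈ X) (huz : u ∈ A ↔ z ∈ A)
    (hne : u ≠ z) (hmu : μ u = u) (hmz : μ z = z) :
    ∃ (μ' : V → V) (T' R : Finset V), KB3_St C m μ T μ' T' R ∧ R.card ≤ 4 ∧
      (∀ x, x = u ∨ x = z ∨ μ x ≠ x → μ' x ≠ x) ∧ (∀ v ∈ R, v = u ∨ v = z ∨ v ∉ S) := by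
  obtain ⟨b, hb, hzb⟩ := KB3_same hK hT hu hs hz huz
  unfold KB3_P at hb
  rw [Finset.mem_filter] at hb
  obtain ⟨-, b1, b2, b3, b4, b5, b6, b7⟩ := hb
  have hmb : μ b = m b := h.off b b2
  have hmmb : μ (m b) = b := by rw [h.off _ b7, hK.inv]
  obtain ⟨μ1, T1, s1, v1, v2, v3⟩ := KB3_shf hK.inv h hmu b3
  rw [hmb] at s1 v3
  have v3' := v3 b4
  have zb : z ≠ b := by
    intro h0
    rw [h0, hmb] at hmz
    exact b4 hmz
  have zmb : z ≠ m b := by
    intro h0
    rw [h0, hmmb] at hmz
    exact b4 hmz.symm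
  have umb : u ≠ m b := by
    intro h0
    rw [h0, hmmb] at hmu
    exact b4 hmu.symm
  have v4 : μ1 z = z := by
    rw [s1.same z, hmz]
    simp only [Finset.mem_insert, Finset.mem_singleton, not_or]
    exact ⟨hne.symm, zb, zmb⟩
  have s2 := KB3_joiSt s1.chg v4 v3' hzb
  have s3 := KB3_trans s1 s2
  refine ⟨_, _, {u, b, m b, z}, ⟨s3.chg, s3.sub, ?_, ?_⟩, ?_, ?_, ?_⟩
  · intro v hv
    have := s3.sup hv
    simp only [Finset.mem_union, Finset.mem_insert, Finset.mem_singleton] at this ⊢
    tauto
  · intro v hv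
    apply s3.same
    simp only [Finset.mem_union, Finset.mem_insert, Finset.mem_singleton] at hv ⊢
    tauto
  · exact (Finset.card_le_four)
  · intro x hx
    by_cases x1 : x = z
    · subst x1
      rw [KB3_joi_a]
      exact zmb.symm
    by_cases x2 : x = m b
    · subst x2
      rw [KB3_joi_b]
      exact zmb
    rw [KB3_joi_c _ _ _ _ x1 x2]
    by_cases x3 : x = u
    · subst x3
      rw [v1]
      exact b3.ne.symm
    by_cases x4 : x = b
    · subst x4
      rw [v2]
      exact b3.ne
    rw [s1.same x]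
    · tauto
    · simp only [Finset.mem_insert, Finset.mem_singleton, not_or]
      exact ⟨x3, x4, x2⟩
  · intro v hv
    simp only [Finset.mem_insert, Finset.mem_singleton] at hv
    rcases hv with hv | hv | hv | hv
    · exact Or.inl hv
    · subst hv
      exact Or.inr (Or.inr b1)
    · subst hv
      exact Or.inr (Or.inr b6)
    · exact Or.inr (Or.inl hv)

/-- any two vertices -/
theorem KB3_jn2 {A X Z S T : Finset V} {C : SimpleGraph V} {m μ : V → V} {ε : ℝ}
    (hK : KCtx A X Z C m S ε) (h : Chg C m μ T)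
    (hT : (T.card : ℝ) + 3 ≤ ε / 4 * Fintype.card V)
    {u z : V} (hu : u ∈ X) (hs : stk C m X S ε u) (hz : z ∈ X)
    (hst : ∀ b ∈ KB3_P C m X S T u, stk C m X S ε (m b))
    (hne : u ≠ z) (hmu : μ u = u) (hmz : μ z = z) :
    ∃ (μ' : V → V) (T' R : Finset V), KB3_St C m μ T μ' T' R ∧ R.card ≤ 7 ∧
      (∀ x, x = u ∨ x = z ∨ μ x ≠ x → μ' x ≠ x) ∧ (∀ v ∈ R, v = u ∨ v = z ∨ v ∉ S) := by
  have hT0 : (T.card : ℝ) ≤ ε / 4 * Fintype.card V := by linarith
  by_cases huz : u ∈ A ↔ z ∈ A
  · obtain ⟨μ', T', R, a1, a2, a3, a4⟩ := KB3_jn1 hK h hT0 hu hs hz huz hne hmu hmz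
    exact ⟨μ', T', R, a1, by omega, a3, a4⟩
  have hcard := KB3_Pcard hK hT0 hu hs
  have hN : 0 < (Fintype.card V : ℝ) := by
    have : 0 < Fintype.card V := Fintype.card_pos_iff.2 ⟨u⟩
    exact_mod_cast this
  have hpos : 0 < ((KB3_P C m X S T u).card : ℝ) := by
    have : 0 < (1 / 4 + 2 * ε) * Fintype.card V := by
      have := hK.e0
      positivity
    linarith
  have hpos' : 0 < (KB3_P C m X S T u).card := by exact_mod_cast hpos
  obtain ⟨b, hb⟩ := Finset.card_pos.1 hpos'
  have hstb := hst b hb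
  unfold KB3_P at hb
  rw [Finset.mem_filter] at hb
  obtain ⟨-, b1, b2, b3, b4, b5, b6, b7⟩ := hb
  have hmb : μ b = m b := h.off b b2
  have hmmb : μ (m b) = b := by rw [h.off _ b7, hK.inv]
  obtain ⟨μ1, T1, s1, v1, v2, v3⟩ := KB3_shf hK.inv h hmu b3
  rw [hmb] at s1 v3
  have v3' := v3 b4
  have zb : z ≠ b := by
    intro h0
    rw [h0, hmb] at hmz
    exact b4 hmz
  have zmb : z ≠ m b := by
    intro h0
    rw [h0, hmmb] at hmz
    exact b4 hmz.symm
  have v4 : μ1 z = z := by
    rw [s1.same z, hmz]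
    simp only [Finset.mem_insert, Finset.mem_singleton, not_or]
    exact ⟨hne.symm, zb, zmb⟩
  have hside := (hK.cr u b b3).2.2
  have hmbA : m b ∈ A ↔ z ∈ A := by
    rw [hK.inn]
    tauto
  have hT1 : (T1.card : ℝ) ≤ ε / 4 * Fintype.card V := by
    have c1 := Finset.card_le_card s1.sup
    have c2 := Finset.card_union_le T {u, b, m b}
    have c3 : ({u, b, m b} : Finset V).card ≤ 3 := Finset.card_le_three
    have c4 : T1.card ≤ T.card + 3 := by omega
    have c5 : (T1.card : ℝ) ≤ T.card + 3 := by exact_mod_cast c4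
    linarith
  obtain ⟨μ2, T2, R, a1, a2, a3, a4⟩ := KB3_jn1 hK s1.chg hT1 b5 hstb hz hmbA zmb.symm v3' v4
  refine ⟨μ2, T2, _, KB3_trans s1 a1, ?_, ?_, ?_⟩
  · have c2 := Finset.card_union_le {u, b, m b} R
    have c3 : ({u, b, m b} : Finset V).card ≤ 3 := Finset.card_le_three
    omega
  · intro x hx
    apply a3
    by_cases x1 : x = z
    · exact Or.inr (Or.inl x1)
    by_cases x2 : x = m b
    · exact Or.inl x2
    right; right
    by_cases x3 : x = u
    · subst x3
      rw [v1]
      exact b3.ne.symm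
    by_cases x4 : x = b
    · subst x4
      rw [v2]
      exact b3.ne
    rw [s1.same x]
    · tauto
    · simp only [Finset.mem_insert, Finset.mem_singleton, not_or]
      exact ⟨x3, x4, x2⟩
  · intro v hv
    simp only [Finset.mem_union, Finset.mem_insert, Finset.mem_singleton] at hv
    rcases hv with (hv | hv | hv) | hv
    · exact Or.inl hv
    · subst hv
      exact Or.inr (Or.inr b1)
    · subst hv
      exact Or.inr (Or.inr b6)
    · rcases a4 v hv with hv | hv | hv
      · subst hv
        exact Or.inr (Or.inr b6)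
      · exact Or.inr (Or.inl hv)
      · exact Or.inr (Or.inr hv)

theorem KB3_xch {m μ μ' : V → V} {X R : Finset V} (h : ∀ v, v ∉ R → μ' v = μ v) :
    xch m μ' X ≤ xch m μ X + R.card := by
  unfold xch
  refine le_trans (Finset.card_le_card ?_) (Finset.card_union_le _ _)
  intro v hv
  rw [Finset.mem_filter] at hv
  rw [Finset.mem_union, Finset.mem_filter]
  by_cases h1 : v ∈ R
  · exact Or.inr h1
  · left
    rw [← h v h1]
    exact hv

/-- the good edge -/
theorem KB3_edge {X Bx By : Finset V} {C : SimpleGraph V} {k : ℕ} (hk : Bx.card + By.card ≤ k)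
    (h : k * Fintype.card V < ep C X Xᶜ) :
    ∃ x ∈ X, ∃ y, y ∉ X ∧ C.Adj x y ∧ x ∉ Bx ∧ y ∉ By := by
  by_contra hcon
  push Not at hcon
  have h1 : ep C X Xᶜ ≤ ∑ v ∈ X, ((if v ∈ Bx then Fintype.card V else 0) + By.card) := by
    unfold ep
    apply Finset.sum_le_sum
    intro v hv
    by_cases h2 : v ∈ Bx
    · rw [if_pos h2]
      refine le_trans ?_ (Nat.le_add_right _ _)
      exact Finset.card_le_univ _
    · rw [if_neg h2, zero_add]
      apply Finset.card_le_card
      intro w hw
      rw [Finset.mem_filter, Finset.mem_compl] at hw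
      exact hcon v hv w hw.1 hw.2 h2
  rw [Finset.sum_add_distrib, Finset.sum_ite, Finset.sum_const_zero, add_zero, Finset.sum_const,
    Finset.sum_const, smul_eq_mul, smul_eq_mul] at h1
  have h2 : (X.filter fun v => v ∈ Bx).card ≤ Bx.card := by
    apply Finset.card_le_card
    intro v hv
    exact (Finset.mem_filter.1 hv).2
  have h3 : X.card ≤ Fintype.card V := Finset.card_le_univ _
  have h4 : (X.filter fun v => v ∈ Bx).card * Fintype.card V + X.card * By.card ≤
      (Bx.card + By.card) * Fintype.card V := by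
    rw [add_mul]
    apply add_le_add (Nat.mul_le_mul_right _ h2)
    rw [mul_comm By.card]
    exact Nat.mul_le_mul_right _ h3
  have h5 : (Bx.card + By.card) * Fintype.card V ≤ k * Fintype.card V := Nat.mul_le_mul_right _ hk
  omega

/-- the first half of the main case: a second uncovered vertex `z` -/
theorem KB3_first {X S2 T : Finset V} {C : SimpleGraph V} {m μ : V → V}
    (hm : ∀ v, m (m v) = v) (h : Chg C m μ T)
    (hE : (8 * S2.card + 4) * Fintype.card V < ep C X Xᶜ) {u : V} (hu : u ∈ X) (hmu : μ u = u)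
    (hcov : ∀ x ∈ X, x ≠ u → μ x ≠ x) :
    ∃ (μ' : V → V) (T' T2 : Finset V) (z : V), KB3_St C m μ T μ' T' T2 ∧ T2.card ≤ 4 ∧
      Disjoint T2 S2 ∧ z ∈ X ∧ z ≠ u ∧ z ∈ T2 ∧ μ' u = u ∧ μ' z = z ∧
      ∀ x ∈ X, x ≠ u → x ≠ z → μ' x ≠ x := by
  by_cases hn : 2 * S2.card + 1 ≤ (X.filter fun x => μ x ∉ X).card
  · obtain ⟨z, hz, hz'⟩ : ∃ z ∈ (X.filter fun x => μ x ∉ X), z ∉ S2 ∪ S2.image μ := by
      by_contra hcon
      push Not at hcon
      have h1 := Finset.card_le_card (show (X.filter fun x => μ x ∉ X) ⊆ S2 ∪ S2.image μ from hcon)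
      have h2 := Finset.card_union_le S2 (S2.image μ)
      have h3 : (S2.image μ).card ≤ S2.card := Finset.card_image_le
      omega
    rw [Finset.mem_filter] at hz
    rw [Finset.mem_union, not_or] at hz'
    have hz2 : μ z ∉ S2 := by
      intro h1
      apply hz'.2
      rw [Finset.mem_image]
      exact ⟨μ z, h1, h.inv z⟩
    have hzu : z ≠ u := by
      intro h0
      apply hz.2
      rw [h0, hmu]
      exact hu
    have huz : u ≠ μ z := by
      intro h0
      apply hz.2
      rw [← h0]
      exact hu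
    refine ⟨_, _, _, z, KB3_delSt hm h z, ?_, ?_, hz.1, hzu, by simp, ?_, KB3_del_a _ _, ?_⟩
    · have : ({z, μ z} : Finset V).card ≤ 2 := Finset.card_le_two
      omega
    · rw [Finset.disjoint_left]
      intro v hv
      simp only [Finset.mem_insert, Finset.mem_singleton] at hv
      rcases hv with rfl | rfl
      · exact hz'.1
      · exact hz2
    · rw [KB3_del_c _ _ _ hzu.symm huz, hmu]
    · intro x hx hxu hxz
      have hxz' : x ≠ μ z := by
        intro h0
        apply hz.2
        rw [← h0]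
        exact hx
      rw [KB3_del_c _ _ _ hxz hxz']
      exact hcov x hx hxu
  · push Not at hn
    set F := X.filter fun x => μ x ∉ X with hF
    have hk : (({u} ∪ F ∪ S2 ∪ S2.image μ).card + (F.image μ ∪ S2 ∪ S2.image μ).card) ≤
        8 * S2.card + 4 := by
      have h1 := Finset.card_union_le ({u} ∪ F ∪ S2) (S2.image μ)
      have h2 := Finset.card_union_le ({u} ∪ F) S2
      have h3 := Finset.card_union_le {u} F
      have h4 := Finset.card_union_le (F.image μ ∪ S2) (S2.image μ)
      have h5 := Finset.card_union_le (F.image μ) S2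
      have h6 : (S2.image μ).card ≤ S2.card := Finset.card_image_le
      have h7 : (F.image μ).card ≤ F.card := Finset.card_image_le
      have h8 : ({u} : Finset V).card = 1 := Finset.card_singleton u
      omega
    obtain ⟨x, hx, y, hy, hxy, hxB, hyB⟩ := KB3_edge hk hE
    simp only [Finset.mem_union, not_or, Finset.mem_singleton] at hxB hyB
    obtain ⟨⟨⟨xu, xF⟩, xS⟩, xS'⟩ := hxB
    obtain ⟨⟨yF, yS⟩, yS'⟩ := hyB
    have mx : μ x ∈ X := by
      by_contra h1
      apply xF
      rw [hF, Finset.mem_filter]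
      exact ⟨hx, h1⟩
    have my : μ y ∉ X := by
      intro h1
      apply yF
      rw [Finset.mem_image]
      refine ⟨μ y, ?_, h.inv y⟩
      rw [hF, Finset.mem_filter, h.inv]
      exact ⟨h1, hy⟩
    have mxS : μ x ∉ S2 := by
      intro h1
      apply xS'
      rw [Finset.mem_image]
      exact ⟨μ x, h1, h.inv x⟩
    have myS : μ y ∉ S2 := by
      intro h1
      apply yS'
      rw [Finset.mem_image]
      exact ⟨μ y, h1, h.inv y⟩
    have mxx : μ x ≠ x := hcov x hx xu
    have yx : y ≠ x := fun h0 => hy (h0 ▸ hx)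
    have ymx : y ≠ μ x := fun h0 => hy (h0 ▸ mx)
    have xmy : x ≠ μ y := fun h0 => my (h0 ▸ hx)
    have umx : u ≠ μ x := by
      intro h0
      apply xu
      rw [← h.inv x, ← h0, hmu]
    have uy : u ≠ y := fun h0 => hy (h0 ▸ hu)
    have umy : u ≠ μ y := fun h0 => my (h0 ▸ hu)
    have mxmy : μ x ≠ μ y := fun h0 => my (h0 ▸ mx)
    have s1 := KB3_delSt hm h x
    have e1 : KB3_del μ x y = μ y := KB3_del_c _ _ _ yx ymx
    have s2 := KB3_delSt hm s1.chg y
    rw [e1] at s2
    have e2 : KB3_del (KB3_del μ x) y x = x := by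
      rw [KB3_del_c _ _ _ yx.symm (by rw [e1]; exact xmy), KB3_del_a]
    have e3 : KB3_del (KB3_del μ x) y y = y := KB3_del_a _ _
    have s3 := KB3_joiSt s2.chg e2 e3 hxy
    have s4 := KB3_trans (KB3_trans s1 s2) s3
    have val : ∀ v, v ≠ x → v ≠ y → v ≠ μ x → v ≠ μ y →
        KB3_joi (KB3_del (KB3_del μ x) y) x y v = μ v := by
      intro v v1 v2 v3 v4
      rw [KB3_joi_c _ _ _ _ v1 v2, KB3_del_c _ _ _ v2 (by rw [e1]; exact v4),
        KB3_del_c _ _ _ v1 v3]
    refine ⟨_, _, {x, μ x, y, μ y}, μ x, ⟨s4.chg, s4.sub, ?_, ?_⟩, Finset.card_le_four, ?_, mx,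
      umx.symm, by simp, ?_, ?_, ?_⟩
    · intro v hv
      have := s4.sup hv
      simp only [Finset.mem_union, Finset.mem_insert, Finset.mem_singleton] at this ⊢
      tauto
    · intro v hv
      apply s4.same
      simp only [Finset.mem_union, Finset.mem_insert, Finset.mem_singleton] at hv ⊢
      tauto
    · rw [Finset.disjoint_left]
      intro v hv
      simp only [Finset.mem_insert, Finset.mem_singleton] at hv
      rcases hv with rfl | rfl | rfl | rfl
      · exact xS
      · exact mxS
      · exact yS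
      · exact myS
    · rw [val u (Ne.symm xu) uy umx umy, hmu]
    · rw [KB3_joi_c _ _ _ _ mxx ymx.symm, KB3_del_c _ _ _ ymx.symm (by rw [e1]; exact mxmy),
        KB3_del_b]
    · intro v hv vu vz
      by_cases v1 : v = x
      · subst v1
        rw [KB3_joi_a]
        exact yx
      have v2 : v ≠ y := fun h0 => hy (h0 ▸ hv)
      have v4 : v ≠ μ y := fun h0 => my (h0 ▸ hv)
      rw [val v v1 v2 vz v4]
      exact hcov v hv vu

theorem KB3 (h1 : KB1_stmt) : KB3_stmt := by
  intro V _ A X Z S S2 T C m μ ε hK h hT hE u hu hmu hcov hs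
  have hT0 : (T.card : ℝ) ≤ ε / 4 * Fintype.card V := by linarith
  by_cases hst : ∀ b ∈ KB3_P C m X S T u, stk C m X S ε (m b)
  · obtain ⟨μ1, T1, T2, z, s1, c1, d1, z1, z2, z3, e1, e2, e3⟩ :=
      KB3_first hK.inv h hE hu hmu hcov
    have c2 : T1.card ≤ T.card + 4 := by
      have := Finset.card_le_card s1.sup
      have := Finset.card_union_le T T2
      omega
    have c3 : (T1.card : ℝ) ≤ T.card + 4 := by exact_mod_cast c2
    have hst' : ∀ b ∈ KB3_P C m X S T1 u, stk C m X S ε (m b) := by
      intro b hb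
      apply hst
      unfold KB3_P at hb ⊢
      rw [Finset.mem_filter] at hb ⊢
      obtain ⟨b0, b1, b2, b3, b4, b5, b6, b7⟩ := hb
      exact ⟨b0, b1, fun h0 => b2 (s1.sub h0), b3, b4, b5, b6, fun h0 => b7 (s1.sub h0)⟩
    obtain ⟨μ2, T3, R, s2, c4, f1, f2⟩ :=
      KB3_jn2 hK s1.chg (by linarith) hu hs z1 hst' z2.symm e1 e2
    have s3 := KB3_trans s1 s2
    have c5 : (T2 ∪ R).card ≤ 11 := by
      have := Finset.card_union_le T2 R
      omega
    refine ⟨μ2, T3, T2, s3.chg, s3.sub, ?_, ?_, c1, d1, ?_, ?_⟩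
    · have := Finset.card_le_card s3.sup
      have := Finset.card_union_le T (T2 ∪ R)
      omega
    · intro x hx
      apply f1
      by_cases x1 : x = u
      · exact Or.inl x1
      by_cases x2 : x = z
      · exact Or.inr (Or.inl x2)
      exact Or.inr (Or.inr (e3 x hx x1 x2))
    · intro v hv
      have := s3.sup hv
      simp only [Finset.mem_union] at this
      rcases this with h2 | h2 | h2
      · exact Or.inl h2
      · exact Or.inr (Or.inr (Or.inr h2))
      · rcases f2 v h2 with h3 | h3 | h3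
        · exact Or.inr (Or.inl h3)
        · subst h3
          exact Or.inr (Or.inr (Or.inr z3))
        · exact Or.inr (Or.inr (Or.inl h3))
    · have := KB3_xch (m := m) (X := X) s3.same
      omega
  · push Not at hst
    obtain ⟨b, hb, hns⟩ := hst
    unfold KB3_P at hb
    rw [Finset.mem_filter] at hb
    obtain ⟨-, b1, b2, b3, b4, b5, b6, b7⟩ := hb
    have hmb : μ b = m b := h.off b b2
    have hmmb : μ (m b) = b := by rw [h.off _ b7, hK.inv]
    obtain ⟨μ1, T1, s1, v1, v2, v3⟩ := KB3_shf hK.inv h hmu b3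
    rw [hmb] at s1 v3
    have v3' := v3 b4
    have c3 : ({u, b, m b} : Finset V).card ≤ 3 := Finset.card_le_three
    have c4 : T1.card ≤ T.card + 3 := by
      have := Finset.card_le_card s1.sup
      have := Finset.card_union_le T {u, b, m b}
      omega
    have c5 : (T1.card : ℝ) ≤ T.card + 3 := by exact_mod_cast c4
    obtain ⟨-, μ2, T2, g1, g2, g3, g4, g5, g6, g7⟩ :=
      h1 V A X Z S T1 C m μ1 ε hK s1.chg (by linarith) (m b) b5 v3' hns
    refine ⟨μ2, T2, ∅, g1, s1.sub.trans g2, by omega, ?_, by simp, by simp, ?_, ?_⟩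
    · intro x hx
      by_cases x2 : x = m b
      · rw [x2]
        exact g5
      apply g4 x hx
      by_cases x3 : x = u
      · subst x3
        rw [v1]
        exact b3.ne.symm
      by_cases x4 : x = b
      · subst x4
        rw [v2]
        exact b3.ne
      rw [s1.same x]
      · exact hcov x hx x3
      · simp only [Finset.mem_insert, Finset.mem_singleton, not_or]
        exact ⟨x3, x4, x2⟩
    · intro v hv
      rcases g6 v hv with h2 | h2 | h2
      · have := s1.sup h2
        simp only [Finset.mem_union, Finset.mem_insert, Finset.mem_singleton] at this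
        rcases this with h3 | h3 | h3 | h3
        · exact Or.inl h3
        · exact Or.inr (Or.inl h3)
        · subst h3
          exact Or.inr (Or.inr (Or.inl b1))
        · subst h3
          exact Or.inr (Or.inr (Or.inl b6))
      · subst h2
        exact Or.inr (Or.inr (Or.inl b6))
      · exact Or.inr (Or.inr (Or.inl h2))
    · have := KB3_xch (m := m) (X := X) s1.same
      omega

end

end Pool.Agent.OF
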